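import Pool.Agent.H94.PX4.M92
import Pool.Agent.H94.PX4.M96

/-!
# PX T Pm: the complement `T` is hyperbolic modulo the fibres over `S`
-/

set_option autoImplicit false

open Topology Filter Metric MvPolynomial
open Pool.Agent.H17 (PN VanishesAt HolomorphicInto puncturedDisc)
open Pool.Agent.H36.BP (EN)
open Pool.Agent.AD (Vd)
open Pool.Agent.PX (tht ex Fo Fd dt PD)
open Pool.Agent.TM (tv rs bf RM FT)
open Pool.Agent.HEF (outside)

noncomputable section

namespace Pool.Agent.COP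

variable {k m d r : ℕ} {Λ : Sub k} {F : Poly k 1}

theorem pm_hyp [DiscreteTopology Λ] (hspan : Submodule.span ℝ (Λ : Set (Cn (k + 1))) = ⊤) (hB : IsBinaryForm Λ F d) (hF : IsReducedOverSimple Λ F) (hm : 1 ≤ m) (hd : 2 * m < d) :
    PXF.IsHyperbolicModulo Λ (coprimeForms Λ m F) (fewZeros Λ (2 * m + 1) F) ∧ HEF.KobayashiPositive Λ (coprimeForms Λ m F) (fewZeros Λ (2 * m + 1) F) := by
  have hΛ := Pool.Agent.TGF.gu_lat Λ hspan
  have hample : IsAmple Λ F := hB.ample (by omega)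
  have H := hyp_of hspan hB hF hm hd
  have h1 := H.hyperbolic hΛ
  have h2 := H.kobayashi hΛ
  rw [outside_RF hB.homogeneous (by omega)] at h1 h2
  refine ⟨⟨h1.discs, fun t g hc z w => ⟨(h1.entire t g hc z w).1, fun h3 => (h1.entire t g hc z w).2 (not_few' hample hm (hc.mem z (Set.mem_univ z)) h3)⟩, fun t g hc => ⟨(h1.punctured t g hc).1, ?_⟩⟩, fun y hy hp => ?_⟩
  · rintro ⟨z, hz, h3⟩
    exact (h1.punctured t g hc).2 ⟨z, hz, not_few' hample hm (hc.mem z hz) h3⟩
  · obtain ⟨p, hp⟩ := hp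
    exact h2 y (not_few' hample hm hp hy) ⟨p, hp⟩

end Pool.Agent.COP
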